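import Pool.Agent.Helper10.SP.GoalsT

/-! # CONI: invariant holomorphic functions are constant -/

open Complex Metric Set Filter Topology MeasureTheory
open scoped ContDiff ComplexConjugate ComplexOrder Manifold

namespace Pool.Agent.Helper70.SP

open Pool.Agent.Helper10.SP Pool.Agent.Helper95.Lin

universe u

theorem coni : S_CONI.{u} := by
  intro n T G _ R hE g hg hd
  have hinv : ∀ γ x y, R γ x y → g x = g y := by
    intro γ x y h
    obtain ⟨τ, U, W, hU, hW, hx, hy, -, -, hτ, -, hmap, -, hiff⟩ := hE.loc γ x y h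
    have harr : Arr R U τ :=
      ⟨hU, hτ, γ, fun x' hx' => (hiff x' hx' (τ x') (hmap hx')).2 rfl⟩
    have h1 := hg.2 U τ harr x hx
    rw [pow_zero, mul_one] at h1
    rw [h1, (hiff x hx y hy).1 h]
  have hcont : ContinuousOn g T := hd.continuousOn
  obtain ⟨C, hCT, hC, hcoc⟩ := hE.coc
  obtain ⟨p, hp⟩ := hE.nonempty
  have hCne : C.Nonempty := by
    obtain ⟨γ, y, hy, -⟩ := hcoc p hp
    exact ⟨y, hy⟩
  obtain ⟨x₀, hx₀, hmax⟩ := hC.exists_isMaxOn hCne (hcont.mono hCT).norm
  have hmaxT : ∀ x ∈ T, ‖g x‖ ≤ ‖g x₀‖ := by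
    intro x hx
    obtain ⟨γ, y, hy, hR⟩ := hcoc x hx
    rw [hinv γ x y hR]
    exact hmax hy
  set S : Set (Cn n) := {x | x ∈ T ∧ g x = g x₀} with hS
  have hST : S ⊆ T := fun x hx => hx.1
  have hSo : IsOpen S := by
    rw [isOpen_iff_mem_nhds]
    rintro x ⟨hxT, hxg⟩
    have hTn : T ∈ 𝓝 x := hE.isOpen.mem_nhds hxT
    have hda : ∀ᶠ z in 𝓝 x, DifferentiableAt ℂ g z := by
      filter_upwards [hTn] with z hz
      exact hd.differentiableAt (hE.isOpen.mem_nhds hz)
    have hloc : IsLocalMax (norm ∘ g) x := by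
      filter_upwards [hTn] with z hz
      simp only [Function.comp_apply]
      rw [hxg]
      exact hmaxT z hz
    have := Complex.eventually_eq_of_isLocalMax_norm hda hloc
    filter_upwards [hTn, this] with z hz hz2
    exact ⟨hz, by rw [hz2, hxg]⟩
  have hTS : IsOpen (T \ S) := by
    have : T \ S = T ∩ g ⁻¹' ({g x₀}ᶜ) := by
      ext x
      simp only [hS, mem_diff, mem_setOf_eq, not_and, mem_inter_iff, mem_preimage,
        mem_compl_iff, mem_singleton_iff]
      tauto
    rw [this]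
    exact hcont.isOpen_inter_preimage hE.isOpen isOpen_compl_singleton
  have hinvS : ∀ γ x y, R γ x y → (x ∈ S ↔ y ∈ S) := by
    intro γ x y h
    have hm := hE.mem γ x y h
    simp only [hS, mem_setOf_eq]
    rw [hinv γ x y h]
    tauto
  rcases hE.conn S hST hSo hTS hinvS with h | h
  · exfalso
    have : x₀ ∈ S := ⟨hCT hx₀, rfl⟩
    rw [h] at this
    exact this
  · refine ⟨g x₀, fun x hx => ?_⟩
    rw [← h] at hx
    exact hx.2

end Pool.Agent.Helper70.SP
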